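import Mathlib
import Pool.Agent.H.MP_a8759f_co.B
set_option autoImplicit false

namespace Pool.Agent.H.MP_cf6e1a_co
open Finset Pool.Agent.H.MP_16c276_co Pool.Agent.H.MP_a8759f_co

theorem poly {ι : Type} {n d : ℕ} (hd : 0 < d) (L : Finset ι) (hL : L.Nonempty)
    (F : ι → Finset (Fin n)) (g : ι → (Fin d → ℝ) →ₗ[ℝ] ℝ) (W : Finset (Fin n))
    (p : Fin n → Fin d → ℝ)
    (h1 : ∀ f ∈ L, F f ⊆ W ∧ (F f).card = d ∧ ∀ i ∈ W, g f (p i) ≤ 1 ∧ (g f (p i) = 1 ↔ i ∈ F f))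
    (h2 : ∀ f ∈ L, ∀ i ∈ F f, ∃ f' ∈ L, (F f).erase i ⊆ F f' ∧ i ∉ F f') :
    (∀ (a : (Fin d → ℝ) →ₗ[ℝ] ℝ) (c : ℝ), (∀ i ∈ W, a (p i) = c) → a = 0) ∧
    (∀ σ, (∃ f ∈ L, σ ⊆ F f) → AffineIndependent ℝ fun i : σ => p i) ∧
    ∀ σ, (∃ f ∈ L, σ ⊆ F f) ↔ σ = ∅ ∨ ∃ (a : (Fin d → ℝ) →ₗ[ℝ] ℝ) (c : ℝ), a ≠ 0 ∧
      (∀ i ∈ W, a (p i) ≤ c) ∧ ∀ i, i ∈ σ ↔ i ∈ W ∧ a (p i) = c := by
  classical
  choose! r r1 r2 r3 using h2
  have e1 : ∀ f ∈ L, ∀ i ∈ F f, g f (p i) = 1 := fun f hf i hi =>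
    ((h1 f hf).2.2 i ((h1 f hf).1 hi)).2.2 hi
  have k : ∀ f ∈ L, ∀ i ∈ F f, ∀ c : Fin n → ℝ, ∃ t > 0,
      g f (∑ j ∈ F f, c j • p j) - g (r f i) (∑ j ∈ F f, c j • p j) = c i * t := fun f hf i hi c => by
    have a := (h1 _ (r1 f hf i hi)).2.2 i ((h1 f hf).1 hi)
    refine ⟨1 - g (r f i) (p i), sub_pos.2 (lt_of_le_of_ne a.1 fun h => r3 f hf i hi (a.2.1 h)), ?_⟩
    rw [map_sum, map_sum, ← sum_sub_distrib, sum_eq_single_of_mem i hi fun j hj ne => by
      simp [e1 f hf j hj, e1 _ (r1 f hf i hi) j (r2 f hf i hi (mem_erase.2 ⟨ne, hj⟩))]]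
    simp [e1 f hf i hi, mul_sub]
  have li : ∀ f ∈ L, LinearIndependent ℝ fun i : F f => p i := fun f hf =>
    linearIndepOn_finset_iff.2 fun c hc i hi => by
      obtain ⟨t, a, b⟩ := k f hf i hi c
      rw [hc] at b
      exact (mul_eq_zero.1 (b.symm.trans (by simp))).resolve_right a.ne'
  have sp : ∀ b, ∃ f ∈ L, ∃ c : Fin n → ℝ, (∀ i ∈ F f, 0 ≤ c i) ∧ ∑ j ∈ F f, c j • p j = b := fun b => by
    obtain ⟨f, hf, m⟩ := exists_max_image L (fun f => g f b) hL
    have : b ∈ Submodule.span ℝ (p '' (F f)) := by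
      rw [Set.image_eq_range]
      exact ((li f hf).span_eq_top_of_card_eq_finrank' (by simp [(h1 f hf).2.1])).ge trivial
    obtain ⟨c, hc⟩ := (Submodule.mem_span_image_finset_iff_exists_fun' ℝ).1 this
    refine ⟨f, hf, c, fun i hi => ?_, hc⟩
    obtain ⟨t, a, e⟩ := k f hf i hi c
    rw [hc] at e
    exact nonneg_of_mul_nonneg_left (e ▸ sub_nonneg.2 (m _ (r1 f hf i hi))) a
  have ex : ∀ (a : (Fin d → ℝ) →ₗ[ℝ] ℝ) (c : ℝ), a ≠ 0 → (∀ i ∈ W, a (p i) ≤ c) → ∀ σ : Finset (Fin n),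
      (∀ i ∈ σ, i ∈ W ∧ a (p i) = c) → ∃ f ∈ L, σ ⊆ F f := fun a c a0 ha σ hσ => by
    have q : ∀ f ∈ L, ∀ t : Fin n → ℝ, (∀ i ∈ F f, 0 ≤ t i) →
        a (∑ j ∈ F f, t j • p j) ≤ c * g f (∑ j ∈ F f, t j • p j) := fun f hf t ht => by
      rw [map_sum, map_sum, mul_sum]
      refine sum_le_sum fun i hi => ?_
      simp only [map_smul, smul_eq_mul, e1 f hf i hi, mul_one]
      rw [mul_comm c]
      exact mul_le_mul_of_nonneg_left (ha i ((h1 f hf).1 hi)) (ht i hi)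
    have c0 : 0 < c := by
      obtain ⟨b, hb⟩ := LinearMap.surjective (f := a) a0 1
      obtain ⟨f, hf, t, t0, rfl⟩ := sp b
      have := q f hf t t0
      refine pos_of_mul_pos_left ((hb ▸ one_pos : 0 < a _).trans_le this) ?_
      rw [map_sum]
      exact sum_nonneg fun i hi => by simpa [e1 f hf i hi] using t0 i hi
    obtain ⟨f, hf, t, t0, e⟩ := sp (∑ j ∈ σ, p j)
    have := q f hf t t0
    rw [e, map_sum, map_sum, sum_congr rfl fun i hi => (hσ i hi).2, mul_sum] at this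
    refine ⟨f, hf, fun i hi => by_contra fun hn => this.not_gt (sum_lt_sum (fun j hj => ?_) ⟨i, hi, ?_⟩)⟩
    · exact mul_le_of_le_one_right c0.le ((h1 f hf).2.2 j (hσ j hj).1).1
    · have := (h1 f hf).2.2 i (hσ i hi).1
      exact mul_lt_of_lt_one_right c0 (lt_of_le_of_ne this.1 fun h => hn (this.2.1 h))
  refine ⟨fun a c h => by_contra fun a0 => ?_, fun σ ⟨f, hf, h⟩ => ((li f hf).comp
    (fun i : σ => (⟨i, h i.2⟩ : F f)) fun i j e => Subtype.ext (congrArg Subtype.val e :)).affineIndependent,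
    fun σ => ⟨fun ⟨f, hf, h⟩ => ?_, ?_⟩⟩
  · obtain ⟨f, hf, e⟩ := ex a c a0 (fun i hi => (h i hi).le) W fun i hi => ⟨hi, h i hi⟩
    obtain ⟨i, hi⟩ := card_pos.1 (hd.trans_eq (h1 f hf).2.1.symm)
    have b := h1 _ (r1 f hf i hi)
    exact r3 f hf i hi (eq_of_subset_of_card_le (b.1.trans e) (by rw [b.2.1, (h1 f hf).2.1]) ▸ hi)
  · refine σ.eq_empty_or_nonempty.imp_right fun ⟨j, hj⟩ => ?_
    have b1 : ∀ i ∈ W, ∀ l ∈ F f \ σ, g (r f l) (p i) ≤ 1 := fun i hi l hl =>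
      ((h1 _ (r1 f hf l (mem_sdiff.1 hl).1)).2.2 i hi).1
    have b2 : ∀ i ∈ σ, (g f + ∑ l ∈ F f \ σ, g (r f l)) (p i) = 1 + ∑ l ∈ F f \ σ, 1 := fun i hi => by
      rw [LinearMap.add_apply, LinearMap.sum_apply, e1 f hf i (h hi)]
      exact congrArg _ (sum_congr rfl fun l hl => e1 _ (r1 f hf l (mem_sdiff.1 hl).1) i
        (r2 f hf l (mem_sdiff.1 hl).1 (mem_erase.2 ⟨fun e => (mem_sdiff.1 hl).2 (e ▸ hi), h hi⟩)))
    refine ⟨g f + ∑ l ∈ F f \ σ, g (r f l), 1 + ∑ l ∈ F f \ σ, 1, fun e => ?_, fun i hi => ?_,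
      fun i => ⟨fun hi => ⟨(h1 f hf).1 (h hi), b2 i hi⟩, fun ⟨hi, e⟩ => by_contra fun hn => ?_⟩⟩
    · have := b2 j hj
      rw [e] at this
      exact this.not_lt (by positivity)
    · rw [LinearMap.add_apply, LinearMap.sum_apply]
      exact add_le_add ((h1 f hf).2.2 i hi).1 (sum_le_sum (b1 i hi))
    · rw [LinearMap.add_apply, LinearMap.sum_apply] at e
      have a := (h1 f hf).2.2 i hi
      by_cases c : i ∈ F f
      · have a' := (h1 _ (r1 f hf i c)).2.2 i hi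
        exact e.not_lt (add_lt_add_of_le_of_lt a.1 (sum_lt_sum (b1 i hi) ⟨i, mem_sdiff.2 ⟨c, hn⟩,
          lt_of_le_of_ne a'.1 fun h => r3 f hf i c (a'.2.1 h)⟩))
      · exact e.not_lt (add_lt_add_of_lt_of_le (lt_of_le_of_ne a.1 fun h => c (a.2.1 h))
          (sum_le_sum (b1 i hi)))
  · rintro (rfl | ⟨a, c, a0, ha, e⟩)
    · exact hL.imp fun f hf => ⟨hf, empty_subset _⟩
    · exact ex a c a0 ha σ fun i => (e i).1

theorem ball3 {n : ℕ} (σ : Finset (Fin n)) (h : σ.card = 4) :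
    Nonempty (R (· = σ) ≃ₜ Metric.closedBall (0 : EuclideanSpace ℝ (Fin 3)) 1) := by
  let T : Set (EuclideanSpace ℝ (Fin 3)) := {y | (∀ i, 0 ≤ y i) ∧ y 0 + y 1 + y 2 ≤ 1}
  have t1 : Convex ℝ T := fun x hx y hy a b ha hb h => ⟨fun i => by
      have := hx.1 i
      have := hy.1 i
      simp only [PiLp.add_apply, PiLp.smul_apply, smul_eq_mul]
      positivity, by
    simp only [PiLp.add_apply, PiLp.smul_apply, smul_eq_mul]
    nlinarith [mul_le_mul_of_nonneg_left hx.2 ha, mul_le_mul_of_nonneg_left hy.2 hb]⟩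
  have t2 : IsClosed T := by
    simp only [T, Set.ofPred_and, Set.ofPred_forall]
    exact (isClosed_iInter fun i => isClosed_le (by fun_prop) (by fun_prop)).inter
      (isClosed_le (by fun_prop) (by fun_prop))
  have t3 : (interior T).Nonempty := by
    have o : IsOpen {y : EuclideanSpace ℝ (Fin 3) | (∀ i, 0 < y i) ∧ y 0 + y 1 + y 2 < 1} := by
      simp only [Set.ofPred_and, Set.ofPred_forall]
      exact (isOpen_iInter_of_finite fun i => isOpen_lt (by fun_prop) (by fun_prop)).inter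
        (isOpen_lt (by fun_prop) (by fun_prop))
    exact ⟨WithLp.toLp 2 fun _ => 1 / 8, interior_maximal (fun y hy =>
      show y ∈ T from ⟨fun i => (hy.1 i).le, hy.2.le⟩) o ⟨fun i => by simp, by norm_num⟩⟩
  have t4 : Bornology.IsBounded T := by
    refine (Metric.isBounded_closedBall (x := 0) (r := 1)).subset fun y hy => ?_
    rw [mem_closedBall_zero_iff, EuclideanSpace.norm_eq, Real.sqrt_le_one, Fin.sum_univ_three]
    have a0 := hy.1 0
    have a1 := hy.1 1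
    have a2 := hy.1 2
    have := hy.2
    simp only [Real.norm_eq_abs, sq_abs]
    nlinarith
  obtain ⟨H, -, h2, -⟩ := exists_homeomorph_image_interior_closure_frontier_eq_unitBall t1 t3 t4
  rw [t2.closure_eq] at h2
  let f : (Fin 4 → ℝ) → EuclideanSpace ℝ (Fin 3) := fun x => WithLp.toLp 2 ![x 0, x 1, x 2]
  let g : EuclideanSpace ℝ (Fin 3) → Fin 4 → ℝ := fun y => ![y 0, y 1, y 2, 1 - (y 0 + y 1 + y 2)]
  have f1 : ∀ x ∈ R (· = (univ : Finset (Fin 4))), f x ∈ T ∧ g (f x) = x := fun x hx => by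
    have := (Fin.sum_univ_four x).symm.trans hx.2.1
    have := hx.1 3
    refine ⟨⟨fun i => by fin_cases i <;> exact hx.1 _, by simp [f]; linarith⟩, funext fun i => ?_⟩
    fin_cases i <;> first | rfl | skip
    simp [f, g]
    linarith
  have g1 : ∀ y ∈ T, g y ∈ R (· = (univ : Finset (Fin 4))) := fun y hy => by
    refine ⟨fun i => ?_, by simp [g, Fin.sum_univ_succ]; ring, _, rfl, by simp⟩
    fin_cases i
    exacts [hy.1 0, hy.1 1, hy.1 2, sub_nonneg.2 hy.2]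
  have g2 : ∀ y, f (g y) = y := fun y => by
    ext i
    fin_cases i <;> rfl
  have f3 : Continuous f := by fun_prop
  have g3 : Continuous g := by fun_prop
  obtain ⟨e⟩ := emb (σ.orderEmbOfFin h).toEmbedding (· = univ)
  refine ⟨(Homeomorph.setCongr (by simp)).trans (e.trans (Homeomorph.trans (Y := T)
    ⟨⟨fun x => ⟨f x, (f1 x x.2).1⟩, fun y => ⟨g y, g1 y y.2⟩,
    fun x => Subtype.ext (f1 x x.2).2, fun y => Subtype.ext (g2 y)⟩,
    (f3.comp continuous_subtype_val).subtype_mk _, (g3.comp continuous_subtype_val).subtype_mk _⟩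
    ((H.image T).trans (Homeomorph.setCongr h2))))⟩

noncomputable def fL {X : Type} (l : List ℕ) (k : List ℕ → X) : X :=
  List.rec (motive := fun _ => (List ℕ → X) → X) (fun k => k [])
    (fun a _ ih k => force a fun a' => ih fun t => k (a' :: t)) l k

theorem fL_eq {X : Type} (l : List ℕ) (k : List ℕ → X) : fL l k = k l := by
  induction l generalizing k with
  | nil => rfl
  | cons a t ih => exact (force_eq a fun a' => fL t fun t => k (a' :: t)).trans (ih _)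

noncomputable def flt (a : ℕ) (c : Bool) (l : List ℕ) : List ℕ :=
  List.rec [] (fun f _ ih => Bool.rec (Bool.rec (f :: ih) ih c) (Bool.rec ih (f :: ih) c)
    (Nat.beq (Nat.land f a) a)) l

theorem mem_flt {a m : ℕ} {c : Bool} {l : List ℕ} :
    m ∈ flt a c l ↔ m ∈ l ∧ decide (m &&& a = a) = c := by
  induction l with
  | nil => simp [flt]
  | cons f t ih =>
    have e : Nat.beq (Nat.land f a) a = decide (f &&& a = a) := by
      rw [Bool.eq_iff_iff, Nat.beq_eq, decide_eq_true_eq]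
      rfl
    change m ∈ (Bool.rec (Bool.rec (f :: flt a c t) (flt a c t) c)
      (Bool.rec (flt a c t) (f :: flt a c t) c) (Nat.beq (Nat.land f a) a) : List ℕ) ↔ _
    rw [e]
    by_cases h : f &&& a = a <;> cases c <;> simp only [h, decide_true, decide_false, List.mem_cons, ih] <;>
      grind

theorem sub_app {n a w : ℕ} (x : List ℕ) {y : List ℕ} (h : ∀ f ∈ y, f &&& a ≠ a) :
    RL n (sub n (x ++ y) a w) = RL n (sub n x a w) ∪ RL n y := by
  have : sub n (x ++ y) a w = sub n x a w ++ y := by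
    rw [sub, List.flatMap_append, List.flatMap_congr (l := y) (g := fun f => [f]) fun f hf =>
      if_neg (h f hf), List.flatMap_singleton']
    rfl
  ext x
  simp only [this, RL, R, Set.mem_union, Set.mem_ofPred_eq, List.mem_append, or_and_right, exists_or,
    and_or_left]

noncomputable def ch (n w : ℕ) (e : List ℕ) : List (ℕ × ℕ × ℕ) → List ℕ → Bool
  | [], l => cov l e && cov e l
  | (a, b, c) :: t, l => fL (flt a true l) fun st => fL (flt a false l) fun rs =>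
    fL (sub n (flt (2 ^ c) false st) a c) fun nw => fL (sub n st a w) fun x => fL (sub n nw b w) fun y =>
      okS n [] a w && okS n nw b w && (flt b true rs).isEmpty && cov x y && cov y x && ch n w e t (nw ++ rs)

theorem ch_ok {n : ℕ} (w : Fin n) (e : List ℕ) (t : List (ℕ × ℕ × ℕ)) : ∀ l, (∀ f ∈ l, f.testBit w = false) →
    ch n w e t l = true → Nonempty (RL n l ≃ₜ RL n e) := by
  induction t with
  | nil =>
    intro l _ h
    simp only [ch, Bool.and_eq_true] at h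
    exact ⟨Homeomorph.setCongr ((cov_sub h.1).antisymm (cov_sub h.2))⟩
  | cons x t ih =>
    obtain ⟨a, b, c⟩ := x
    intro l hl h
    simp only [ch, fL_eq, Bool.and_eq_true] at h
    generalize sub n (flt (2 ^ c) false (flt a true l)) a c = nw at h
    obtain ⟨⟨⟨⟨⟨h1, h2⟩, h3⟩, h4⟩, h5⟩, h6⟩ := h
    have k : ∀ f ∈ nw ++ flt a false l, f.testBit w = false := fun f hf =>
      (List.mem_append.1 hf).elim (fun h => by
        simp only [okS, Bool.and_eq_true, List.all_eq_true, Bool.not_eq_true'] at h2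
        exact h2.2 f h) fun h => hl f (mem_flt.1 h).1
    obtain ⟨e1⟩ := sub_homeo l a w (by
      simp only [okS, Bool.and_eq_true, List.all_eq_true, Bool.not_eq_true'] at h1 ⊢
      exact ⟨h1.1, hl⟩)
    obtain ⟨e2⟩ := sub_homeo (nw ++ flt a false l) b w (by
      simp only [okS, Bool.and_eq_true, List.all_eq_true, Bool.not_eq_true'] at h2 ⊢
      exact ⟨h2.1, k⟩)
    obtain ⟨e3⟩ := ih _ k h6
    refine ⟨e1.symm.trans ((Homeomorph.setCongr ?_).trans (e2.trans e3))⟩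
    rw [sub_app _ fun f hf h => List.not_mem_nil (List.isEmpty_iff.1 h3 ▸
      mem_flt.2 ⟨hf, decide_eq_true h⟩), ← (cov_sub h4).antisymm (cov_sub h5),
      ← sub_app _ fun f hf => of_decide_eq_false (mem_flt.1 hf).2]
    have : ∀ f, f ∈ flt a true l ++ flt a false l ↔ f ∈ l := fun f => by
      simp only [List.mem_append, mem_flt]
      grind
    simp only [RL, sub, List.mem_flatMap, this]

def bt (n m : ℕ) : List ℕ := (List.range n).filter m.testBit

theorem mem_bt {n m : ℕ} {x : Fin n} (h : x ∈ dec n m) : x.1 ∈ bt n m :=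
  List.mem_filter.2 ⟨List.mem_range.2 x.2, mem_dec.1 h⟩

theorem card_dec {n m : ℕ} : (dec n m).card = (bt n m).length := by
  rw [bt, ← List.toFinset_card_of_nodup (List.nodup_range.filter _), ← card_map Fin.valEmbedding]
  congr 1
  ext i
  simp [mem_dec, Fin.exists_iff, and_comm]

theorem dec_and {n m a : ℕ} : dec n m ∩ dec n a = dec n (m &&& a) := by
  ext i
  simp [mem_dec]

theorem dec_sd {n m a : ℕ} : dec n m \ dec n a = dec n (m ^^^ (m &&& a)) := by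
  ext i
  simp only [mem_sdiff, mem_dec, Nat.testBit_xor, Nat.testBit_and]
  cases m.testBit i <;> cases a.testBit i <;> simp

noncomputable def rid (n : ℕ) (l l' : List ℕ) : Bool := l.all fun f => (bt n f).all fun i =>
  force (f ^^^ 2 ^ i) fun r => l'.any fun g => Nat.beq (Nat.land g r) r && !g.testBit i

theorem rid_ok {n : ℕ} {l l' : List ℕ} (h : rid n l l' = true) : ∀ f ∈ l, ∀ i ∈ dec n f,
    ∃ g ∈ l', (dec n f).erase i ⊆ dec n g ∧ i ∉ dec n g := fun f hf i hi => by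
  have := List.all_eq_true.1 (List.all_eq_true.1 h f hf) i (mem_bt hi)
  simp only [force_eq, List.any_eq_true, Bool.and_eq_true, Nat.beq_eq, Bool.not_eq_true'] at this
  obtain ⟨g, a, b, c⟩ := this
  exact ⟨g, a, dec_xor (mem_dec.1 hi) ▸ sub1 b, by simp [mem_dec, c]⟩

abbrev Z4 := ℤ × ℤ × ℤ × ℤ

def dot (a p : Z4) : ℤ := a.1 * p.1 + a.2.1 * p.2.1 + a.2.2.1 * p.2.2.1 + a.2.2.2 * p.2.2.2

noncomputable def pc (n W : ℕ) (P : List Z4) (L : List (ℕ × ℤ × Z4)) : Bool :=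
  (L.all fun f => 0 < f.2.1 && f.1 &&& W == f.1 && (bt n f.1).length == 4) &&
  ((bt n W).all fun i => L.all fun f => if f.1.testBit i then dot f.2.2 (P.getD i 0) == f.2.1 else
    dot f.2.2 (P.getD i 0) < f.2.1) && fL (L.map Prod.fst) fun l => rid n l l && !l.isEmpty

def K (n : ℕ) (l : List ℕ) : Finset (Finset (Fin n)) := univ.filter fun σ => ∃ m ∈ l, σ ⊆ dec n m

theorem mem_K {n : ℕ} {l : List ℕ} {σ : Finset (Fin n)} : σ ∈ K n l ↔ ∃ m ∈ l, σ ⊆ dec n m := by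
  simp [K]

theorem pc_ok {n W : ℕ} {P : List Z4} {L : List (ℕ × ℤ × Z4)} (h : pc n W P L = true) :
    ∃ (W : Finset (Fin n)) (p : Fin n → Fin 4 → ℝ),
    (∀ (a : (Fin 4 → ℝ) →ₗ[ℝ] ℝ) (c : ℝ), (∀ i ∈ W, a (p i) = c) → a = 0) ∧
    (∀ σ ∈ K n (L.map Prod.fst), AffineIndependent ℝ fun i : σ => p i) ∧
    ∀ σ, σ ∈ K n (L.map Prod.fst) ↔ σ = ∅ ∨ ∃ (a : (Fin 4 → ℝ) →ₗ[ℝ] ℝ) (c : ℝ), a ≠ 0 ∧
      (∀ i ∈ W, a (p i) ≤ c) ∧ ∀ i, i ∈ σ ↔ i ∈ W ∧ a (p i) = c := by
  simp only [pc, fL_eq, Bool.and_eq_true, List.all_eq_true, decide_eq_true_eq, beq_iff_eq] at h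
  obtain ⟨⟨h1, h2⟩, h3, h4⟩ := h
  let v : Z4 → Fin 4 → ℝ := fun a => ![a.1, a.2.1, a.2.2.1, a.2.2.2]
  have k := poly four_pos L.toFinset (by simpa using h4) (fun f => dec n f.1)
    (fun f => (f.2.1 : ℝ)⁻¹ • Fintype.linearCombination ℝ (v f.2.2)) (dec n W)
    (fun i => v (P.getD i 0)) (fun f hf => by
      obtain ⟨⟨a, b⟩, c⟩ := h1 f (List.mem_toFinset.1 hf)
      refine ⟨sub1 ((Nat.and_comm _ _).trans b), card_dec.trans c, fun i hi => ?_⟩
      have d := h2 i (mem_bt hi) f (List.mem_toFinset.1 hf)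
      have e : ((f.2.1 : ℝ)⁻¹ • Fintype.linearCombination ℝ (v f.2.2)) (v (P.getD i 0)) =
          (dot f.2.2 (P.getD i 0) : ℝ) / f.2.1 := by
        simp [Fintype.linearCombination_apply, Fin.sum_univ_four, v, dot, div_eq_inv_mul, mul_comm]
      have a' : (0 : ℝ) < f.2.1 := by exact_mod_cast a
      rw [e, div_le_one a', div_eq_one_iff_eq a'.ne', mem_dec, Int.cast_le, Int.cast_inj]
      split_ifs at d with t
      · exact ⟨(beq_iff_eq.1 d).le, iff_of_true (beq_iff_eq.1 d) t⟩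
      · have := of_decide_eq_true d
        exact ⟨this.le, iff_of_false this.ne t⟩) fun f hf i hi => by
      obtain ⟨_, a, b⟩ := rid_ok h3 _ (List.mem_map_of_mem (List.mem_toFinset.1 hf)) i hi
      obtain ⟨g, c, rfl⟩ := List.mem_map.1 a
      exact ⟨g, List.mem_toFinset.2 c, b⟩
  have : ∀ σ, σ ∈ K n (L.map Prod.fst) ↔ ∃ f ∈ L.toFinset, σ ⊆ dec n f.1 := fun σ => by
    simp only [mem_K, List.mem_toFinset, List.mem_map, exists_exists_and_eq_and]
  exact ⟨_, _, k.1, fun σ h => k.2.1 σ ((this σ).1 h), fun σ => (this σ).trans (k.2.2 σ)⟩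

end Pool.Agent.H.MP_cf6e1a_co
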