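import Mathlib
import Pool.Agent.H.MP_a8759f_co.A
set_option autoImplicit false

namespace Pool.Agent.H.MP_cf6e1a_co
open Finset Pool.Agent.H.MP_a8759f_co
variable {W : Type} [DecidableEq W]

def Fl {Y : Type} (g : W → W → Y → Y) (s : W → Y) (G : Finset W) : Prop :=
  ∀ x ∈ G, ∀ y ∈ G, g x y (s x) = s y

theorem uniq {Y : Type} {T : ℕ → Prop} {F : ℕ → Finset W} (h : Sh T F) (M : Finset W)
    (g : W → W → Y → Y) (h1 : ∀ i, T i → 2 ≤ (F i \ M).card) (s s' : W → Y) (t : ℕ)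
    (hs : ∀ i < t, T i → Fl g s (F i \ M)) (hs' : ∀ i < t, T i → Fl g s' (F i \ M))
    {i j : ℕ} (hi : i < t) (hj : j < t) (ti : T i) (tj : T j) {p q : W} (hp : p ∈ F i \ M)
    (hq : q ∈ F j \ M) (e : s p = s' p) : s q = s' q := by
  classical
  have k1 : ∀ i < t, T i → ∀ p ∈ F i \ M, s p = s' p → ∀ q ∈ F i \ M, s q = s' q :=
    fun i hi ti p hp e q hq => by rw [← hs i hi ti p hp q hq, ← hs' i hi ti p hp q hq, e]
  have ex : ∃ i, T i := ⟨i, ti⟩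
  have k2 : ∀ j < t, T j → ((∀ q ∈ F j \ M, s q = s' q) ↔ ∀ q ∈ F (Nat.find ex) \ M, s q = s' q) := by
    intro j
    induction j using Nat.strong_induction_on with
    | _ j ih =>
      intro hj tj
      rcases (Nat.find_min' ex tj).eq_or_lt with e | l
      · rw [e]
      obtain ⟨k, c1, c2, v, -, -, c3⟩ := h j tj _ l (Nat.find_spec ex)
      obtain ⟨z, z1, z2⟩ := exists_mem_ne (h1 j tj) v
      have z3 : z ∈ F k \ M := mem_sdiff.2 ⟨c3 (mem_erase.2 ⟨z2, (mem_sdiff.1 z1).1⟩), (mem_sdiff.1 z1).2⟩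
      rw [← ih k c1 (c1.trans hj) c2]
      exact ⟨fun a => k1 k (c1.trans hj) c2 z z3 (a z z1), fun a => k1 j hj tj z z1 (a z z3)⟩
  exact (k2 j hj tj).2 ((k2 i hi ti).1 (k1 i hi ti p hp e)) q hq

theorem exte {Y : Type} {T : ℕ → Prop} {F : ℕ → Finset W} (h : Sh T F)
    (M : Finset W) (g : W → W → Y → Y) (t : ℕ) (h1 : T t → 2 ≤ (F t \ M).card)
    (h2 : T t → ∀ x ∈ F t \ M, ∀ y ∈ F t \ M, ∀ z ∈ F t \ M, ∀ a, g y z (g x y a) = g x z a)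
    (s : W → Y) (hs : ∀ i < t, T i → Fl g s (F i \ M)) :
    (∃ s' : W → Y, (∀ i < t, T i → ∀ p ∈ F i, s' p = s p) ∧ ∀ i < t + 1, T i → Fl g s' (F i \ M)) ∨
      T t ∧ (F t \ M).card = 2 ∧ ∀ x ∈ F t \ M, ∃ k < t, T k ∧ (F t).erase x ⊆ F k := by
  classical
  by_cases tt : T t
  swap
  · exact Or.inl ⟨s, fun _ _ _ _ _ => rfl, fun i hi ti =>
      hs i (lt_of_le_of_ne (by omega) fun e => tt (e ▸ ti)) ti⟩
  by_cases c : (F t \ M).card = 2 ∧ ∀ x ∈ F t \ M, ∃ k < t, T k ∧ (F t).erase x ⊆ F k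
  · exact Or.inr ⟨tt, c⟩
  obtain ⟨z, z1, z2⟩ : ∃ z ∈ F t \ M, ∀ y ∈ F t \ M, (∃ i < t, T i ∧ y ∈ F i) →
      ∃ v, v ≠ z ∧ v ≠ y ∧ ∃ k < t, T k ∧ (F t).erase v ⊆ F k := by
    by_cases c' : ∀ x ∈ F t \ M, ∃ k < t, T k ∧ (F t).erase x ⊆ F k
    · have c3 : 2 < (F t \ M).card := lt_of_le_of_ne (h1 tt) fun e => c ⟨e.symm, c'⟩
      obtain ⟨z, hz⟩ := card_pos.1 (two_pos.trans c3)
      refine ⟨z, hz, fun y _ _ => ?_⟩
      obtain ⟨v, v1, v2⟩ := exists_mem_notMem_of_card_lt_card (card_le_two (a := z) (b := y)|>.trans_lt c3)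
      simp only [mem_insert, mem_singleton, not_or] at v2
      exact ⟨v, v2.1, v2.2, c' v v1⟩
    · push Not at c'
      obtain ⟨z, z1, z2⟩ := c'
      refine ⟨z, z1, fun y hy ⟨i, i1, i2, i3⟩ => ?_⟩
      obtain ⟨k, k1, k2, v, -, v2, v3⟩ := h t tt i i1 i2
      exact ⟨v, fun e => z2 k k1 k2 (e ▸ v3), (mem_erase.1 (v2 (mem_inter.2
        ⟨i3, (mem_sdiff.1 hy).1⟩))).1.symm, k, k1, k2, v3⟩
  let s' : W → Y := fun p => if ∃ i < t, T i ∧ p ∈ F i then s p else g z p (s z)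
  have a1 : ∀ i < t, T i → ∀ p ∈ F i, s' p = s p := fun i a b p c => if_pos ⟨i, a, b, c⟩
  have a2 : ∀ y ∈ F t \ M, s' y = g z y (s z) := fun y hy => by
    by_cases c : ∃ i < t, T i ∧ y ∈ F i
    · obtain ⟨v, v1, v2, k, k1, k2, k3⟩ := z2 y hy c
      exact (if_pos c).trans (hs k k1 k2 z (mem_sdiff.2 ⟨k3 (mem_erase.2 ⟨v1.symm, (mem_sdiff.1 z1).1⟩),
        (mem_sdiff.1 z1).2⟩) y (mem_sdiff.2 ⟨k3 (mem_erase.2 ⟨v2.symm, (mem_sdiff.1 hy).1⟩),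
        (mem_sdiff.1 hy).2⟩)).symm
    · exact if_neg c
  refine Or.inl ⟨s', a1, fun i hi ti x hx y hy => ?_⟩
  rcases Nat.lt_succ_iff_lt_or_eq.1 hi with l | rfl
  · rw [a1 i l ti x (mem_sdiff.1 hx).1, a1 i l ti y (mem_sdiff.1 hy).1]
    exact hs i l ti x hx y hy
  · rw [a2 x hx, a2 y hy, h2 ti z z1 x hx y hy]

theorem cont {Y : Type} {T : ℕ → Prop} {F : ℕ → Finset W} (h : Sh T F) (N U : Finset W)
    (g : W → W → Y → Y) (su : W → W → Y) (h1 : ∀ i, T i → 2 ≤ (F i \ N).card)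
    (h2 : ∀ i, T i → ∀ x ∈ F i \ N, ∀ y ∈ F i \ N, ∀ z ∈ F i \ N, ∀ a, g y z (g x y a) = g x z a)
    (h3 : ∀ i, T i → ∀ u ∈ U, u ∈ F i → Fl g (su u) (F i \ N)) (hU : U ⊆ N) (t0 : ℕ) (s : W → Y)
    (hs : ∀ i < t0, T i → Fl g s (F i \ N))
    (an : ∀ u ∈ U, ∃ k < t0, T k ∧ u ∈ F k ∧ ∃ x ∈ F k \ N, s x = su u x) (t : ℕ) (ht : t0 ≤ t)
    (hc : ∀ r < t, T r → (F r \ N).card = 2 → ∀ k < r, T k → F r ∩ N ⊆ F k → ∃ u ∈ U, u ∈ F r) :
    ∃ s' : W → Y, (∀ i < t0, T i → ∀ p ∈ F i, s' p = s p) ∧ ∀ i < t, T i → Fl g s' (F i \ N) := by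
  have c2 : ∀ {t k x}, x ∈ F t \ N → (F t).erase x ⊆ F k → F t ∩ N ⊆ F k :=
    fun hx a u hu => a (mem_erase.2 ⟨fun e => (mem_sdiff.1 hx).2
      (e ▸ (mem_inter.1 hu).2), (mem_inter.1 hu).1⟩)
  induction t, ht using Nat.le_induction with
  | base => exact ⟨s, fun _ _ _ _ _ => rfl, hs⟩
  | succ r hr ih =>
    obtain ⟨s1, e, hs1⟩ := ih fun q hq => hc q (by omega)
    rcases exte h N g r (h1 r) (h2 r) s1 hs1 with ⟨s', a, b⟩ | ⟨b1, b2, b3⟩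
    · exact ⟨s', fun i c d p f => (a i (by omega) d p f).trans (e i c d p f), b⟩
    obtain ⟨x0, hx0⟩ := card_pos.1 (two_pos.trans_le (h1 r b1))
    obtain ⟨k0, a1, a2, a3⟩ := b3 x0 hx0
    obtain ⟨u, u1, u2⟩ := hc r (by omega) b1 b2 k0 a1 a2 (c2 hx0 a3)
    obtain ⟨k1, d1, d2, d3, x1, d4, d5⟩ := an u u1
    have key : ∀ x ∈ F r \ N, s1 x = su u x := fun x hx => by
      obtain ⟨y, y1, y2⟩ := exists_mem_ne (h1 r b1) x
      obtain ⟨k, a1, a2, a3⟩ := b3 y y1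
      exact uniq (h.link {u}) N g (fun i a => h1 i a.1) s1 (su u) r (fun i a b => hs1 i a b.1)
        (fun i _ b => h3 i b.1 u u1 (singleton_subset_iff.1 b.2)) (by omega) a1
        ⟨d2, singleton_subset_iff.2 d3⟩
        ⟨a2, singleton_subset_iff.2 (c2 y1 a3 (mem_inter.2 ⟨u2, hU u1⟩))⟩ d4
        (mem_sdiff.2 ⟨a3 (mem_erase.2 ⟨y2.symm, (mem_sdiff.1 hx).1⟩), (mem_sdiff.1 hx).2⟩)
        ((e k1 d1 d2 x1 (mem_sdiff.1 d4).1).trans d5)
    refine ⟨s1, e, fun i hi ti => ?_⟩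
    rcases Nat.lt_succ_iff_lt_or_eq.1 hi with l | rfl
    · exact hs1 i l ti
    · intro x hx y hy
      rw [key x hx, key y hy]
      exact h3 i ti u u1 u2 x hx y hy

abbrev Z3 := ZMod 3

theorem flat {T : ℕ → Prop} {F : ℕ → Finset W} (h : Sh T F) (N : Finset W) (e : W → W → Z3)
    (b : W → W → Z3 × Z3) (c : W → W → Z3 × Z3) (n1 : N.card = 4) (he : ∀ x y, e x y * e x y = 1)
    (h0 : ∀ i, T i → (F i).card = 4 ∧ (F i ∩ N).card ≤ 2)
    (h2 : ∀ i, T i → ∀ x ∈ F i \ N, ∀ y ∈ F i \ N, ∀ z ∈ F i \ N,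
      e y z * e x y = e x z ∧ e y z • b x y + b y z = b x z)
    (h3 : ∀ i, T i → ∀ u ∈ F i ∩ N, ∀ x ∈ F i \ N, (∀ y ∈ F i \ N, e x y • c u x + b x y = c u y) ∧
      ∀ v ∈ F i ∩ N, c u x = c v x) (t : ℕ) :
    ∃ α β : Z3, (α ≠ 0 ∨ β ≠ 0) ∧ ∃ s : W → Z3, ∀ i < t, T i →
      Fl (fun x y q => e x y * q + (α * (b x y).1 + β * (b x y).2)) s (F i \ N) := by
  classical
  have c0 := fun i => card_sdiff_add_card_inter (F i) N
  have c1 : ∀ i, T i → 2 ≤ (F i \ N).card := fun i ti => by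
    have := h0 i ti
    have := c0 i
    omega
  let g : W → W → Z3 × Z3 → Z3 × Z3 := fun x y p => e x y • p + b x y
  have g2 : ∀ i, T i → ∀ x ∈ F i \ N, ∀ y ∈ F i \ N, ∀ z ∈ F i \ N, ∀ a, g y z (g x y a) = g x z a :=
    fun i ti x hx y hy z hz a => by
      simp only [g, smul_add, smul_smul, add_assoc, h2 i ti x hx y hy z hz]
  have g3 : ∀ x y, Function.Surjective (g x y) := fun x y p =>
    ⟨e x y • (p - b x y), by simp [g, smul_smul, he]⟩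
  have p1 : ∀ r, (∀ k, k + 1 < r → ¬ (T k ∧ 2 ≤ (F k ∩ N).card)) → ∀ x a,
      ∃ s, s x = a ∧ ∀ i < r, T i → Fl g s (F i \ N) := fun r hr x a => by
    obtain ⟨s, -, hs⟩ := cont (Y := {f : Z3 × Z3 → Z3 × Z3 // f.Surjective}) h N ∅
      (fun x y f => ⟨_, (g3 x y).comp f.2⟩) (fun _ _ => ⟨_, Function.surjective_id⟩) c1
      (fun i ti x hx y hy z hz f => Subtype.ext (funext fun _ => g2 i ti x hx y hy z hz _))
      (by simp) (by simp) 0 (fun _ => ⟨_, Function.surjective_id⟩) (by simp) (by simp) r r.zero_le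
      fun q hq tq d k hk tk f => (hr k (by omega) ⟨tk, le_trans (by have := h0 q tq; have := c0 q; omega)
        (card_le_card (subset_inter f inter_subset_right))⟩).elim
    obtain ⟨a', ha⟩ := (s x).2 a
    exact ⟨fun p => (s p).1 a', ha, fun i hi ti x hx y hy =>
      congrFun (congrArg Subtype.val (hs i hi ti x hx y hy)) a'⟩
  have pr : ∀ (α β : Z3) (s : W → Z3 × Z3) (G : Finset W), Fl g s G →
      Fl (fun x y q => e x y * q + (α * (b x y).1 + β * (b x y).2))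
        (fun p => α * (s p).1 + β * (s p).2) G := fun α β s G a x hx y hy => by
    simp only [← a x hx y hy, g, Prod.fst_add, Prod.snd_add, Prod.smul_fst, Prod.smul_snd, smul_eq_mul]
    ring
  by_cases ex : ∃ k < t, T k ∧ 2 ≤ (F k ∩ N).card
  swap
  · obtain ⟨u, -⟩ := card_pos.1 (n1 ▸ four_pos)
    obtain ⟨s, -, hs⟩ := p1 t (fun k hk a => ex ⟨k, by omega, a⟩) u 0
    exact ⟨1, 0, Or.inl (by decide), _, fun i a d => pr 1 0 s _ (hs i a d)⟩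
  obtain ⟨k1, k2, k3⟩ := Nat.find_spec ex
  have k4 := fun k => Nat.find_min ex (m := k)
  generalize Nat.find ex = t0 at k1 k2 k3 k4
  obtain ⟨x0, hx0⟩ := card_pos.1 (two_pos.trans_le (c1 t0 k2))
  obtain ⟨u0, hu0⟩ := card_pos.1 (two_pos.trans_le k3)
  obtain ⟨s0, a1, a2⟩ := p1 (t0 + 1) (fun k hk a => k4 k (by omega) ⟨by omega, a⟩) x0 (c u0 x0)
  have p2 : ∀ r, t0 + 1 ≤ r → (∀ k, k + 1 < r → ¬ (T k ∧ N \ F t0 ⊆ F k)) →
      ∃ s, s x0 = c u0 x0 ∧ ∀ i < r, T i → Fl g s (F i \ N) := fun r hr a => by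
    obtain ⟨s, a3, a4⟩ := cont h N (F t0 ∩ N) g c c1 g2 (fun i ti u hu d x hx =>
      (h3 i ti u (mem_inter.2 ⟨d, (mem_inter.1 hu).2⟩) x hx).1) inter_subset_right (t0 + 1) s0 a2
      (fun u hu => ⟨t0, by omega, k2, (mem_inter.1 hu).1, x0, hx0,
        a1.trans ((h3 t0 k2 u0 hu0 x0 hx0).2 u hu)⟩) r hr fun q hq tq d k hk tk f => by
        by_contra hn
        push Not at hn
        refine a k (by omega) ⟨tk, Subset.trans (eq_of_subset_of_card_le (s := F q ∩ N) (fun u hu =>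
          mem_sdiff.2 ⟨(mem_inter.1 hu).2, fun l => hn u (mem_inter.2 ⟨l, (mem_inter.1 hu).2⟩)
            (mem_inter.1 hu).1⟩) ?_).ge f⟩
        have := card_sdiff_add_card_inter N (F t0)
        rw [inter_comm] at this
        have := h0 q tq
        have := c0 q
        omega
    exact ⟨s, (a3 t0 (by omega) k2 x0 (mem_sdiff.1 hx0).1).trans a1, a4⟩
  by_cases ey : ∃ k < t, T k ∧ N \ F t0 ⊆ F k
  swap
  · obtain ⟨s, -, hs⟩ := p2 t k1 fun k hk a => ey ⟨k, by omega, a⟩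
    exact ⟨1, 0, Or.inl (by decide), _, fun i a d => pr 1 0 s _ (hs i a d)⟩
  obtain ⟨l1, l2, l3⟩ := Nat.find_spec ey
  have l4 := fun k => Nat.find_min ey (m := k)
  generalize Nat.find ey = t1 at l1 l2 l3 l4
  have l5 : 2 ≤ (N \ F t0).card := by
    have := card_sdiff_add_card_inter N (F t0)
    rw [inter_comm] at this
    have := h0 t0 k2
    omega
  have l6 : N \ F t0 ⊆ F t1 ∩ N := subset_inter l3 sdiff_subset
  obtain ⟨u1, hu1⟩ := card_pos.1 (two_pos.trans_le l5)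
  have l7 : t0 < t1 := lt_of_le_of_ne (not_lt.1 fun l => k4 t1 l ⟨l1, l2, l5.trans (card_le_card l6)⟩)
    fun l => (mem_sdiff.1 hu1).2 (l ▸ l3 hu1)
  obtain ⟨s1, b1, b2⟩ := p2 (t1 + 1) (by omega) fun k hk a => l4 k (by omega) ⟨by omega, a⟩
  obtain ⟨x1, hx1⟩ := card_pos.1 (two_pos.trans_le (c1 t1 l2))
  obtain ⟨α, β, n0, n2⟩ : ∃ α β : Z3, (α ≠ 0 ∨ β ≠ 0) ∧
      α * (s1 x1).1 + β * (s1 x1).2 = α * (c u1 x1).1 + β * (c u1 x1).2 := by
    generalize s1 x1 = p, c u1 x1 = q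
    revert p q
    decide
  obtain ⟨s, -, hs⟩ := cont h N N _ (fun u p => α * (c u p).1 + β * (c u p).2) c1
    (fun i ti x hx y hy z hz q => by
      obtain ⟨d1, d2⟩ := h2 i ti x hx y hy z hz
      simp only [← d1, ← d2, Prod.fst_add, Prod.snd_add, Prod.smul_fst, Prod.smul_snd, smul_eq_mul]
      ring)
    (fun i ti u hu d => pr α β (c u) _ fun x hx => (h3 i ti u (mem_inter.2 ⟨d, hu⟩) x hx).1)
    Subset.rfl (t1 + 1) _ (fun i a d => pr α β s1 _ (b2 i a d)) (fun u hu => by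
      by_cases d : u ∈ F t0
      · exact ⟨t0, by omega, k2, d, x0, hx0, by
          rw [b1, (h3 t0 k2 u0 hu0 x0 hx0).2 u (mem_inter.2 ⟨d, hu⟩)]⟩
      · have d' := l6 (mem_sdiff.2 ⟨hu, d⟩)
        exact ⟨t1, by omega, l2, (mem_inter.1 d').1, x1, hx1, by
          rw [n2, (h3 t1 l2 u1 (l6 hu1) x1 hx1).2 u d']⟩) t l1 fun q hq tq d _ _ _ _ => by
      obtain ⟨u, hu⟩ : (F q ∩ N).Nonempty := card_pos.1 (by have := h0 q tq; have := c0 q; omega)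
      exact ⟨u, (mem_inter.1 hu).2, (mem_inter.1 hu).1⟩
  exact ⟨α, β, n0, s, hs⟩

end Pool.Agent.H.MP_cf6e1a_co
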